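import Pool.Agent.H96.AL.Targets3

/-!
The band lemma (module BL of `al_modules`).
-/

open Topology Set Filter Real

namespace Pool.Agent.H40.AL

open Pool.Agent.H96.AL

theorem bl (hBC : T_BC) (hBS : T_BS) (hPG : T_PG) : T_BL := by
  intro X _ D hSp hdim y₁ R hR hR1
  obtain ⟨n, cg, Cg, hcg, hCg, hpack⟩ := hPG X D hSp hdim ⟨y₁⟩
  obtain ⟨C', hC', hbc⟩ := hBC X D R Cg n hSp hR hR1 hCg
    (fun x r ε h1 h2 h3 h4 => (hpack x r ε h1 h2 h3 h4).2)
  have hD1 : (1 : ℝ) ≤ D := hSp.one_le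
  have hK : 0 < cg * (R / 2) ^ n / (10 * C') := by positivity
  obtain ⟨c, hc, hc1, hc2⟩ : ∃ c : ℝ, 0 < c ∧ c ≤ 1 / 500 ∧ c ≤ cg * (R / 2) ^ n / (10 * C') :=
    ⟨min (1 / 500) (cg * (R / 2) ^ n / (10 * C')), lt_min (by norm_num) hK, min_le_left _ _,
      min_le_right _ _⟩
  obtain ⟨ε, hε, hε1, hε2⟩ : ∃ ε : ℝ, 0 < ε ∧ ε ≤ 5 * c ∧ ε ≤ R / 2 :=
    ⟨min (5 * c) (R / 2), lt_min (by linarith) (by linarith), min_le_left _ _, min_le_right _ _⟩
  obtain ⟨Y, hYsub, hYsep, hYcard⟩ :=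
    (hpack y₁ (R / 2) ε (by linarith) (by linarith) hε hε2).1
  obtain ⟨s₀, hs₀, hcount⟩ := hbc (5 * c) ε (by linarith) (by linarith) hε hε1
  obtain ⟨δB, hδB, hslope⟩ := hBS X D R c hSp hR hc
  have hYpos : (0 : ℝ) < (Y.card : ℝ) := by
    have : 0 < cg * (R / 2 / ε) ^ n := by positivity
    linarith
  have hYne : Y.Nonempty := by
    rw [← Finset.card_pos]
    exact_mod_cast hYpos
  have hYdist : ∀ y ∈ Y, dist y y₁ < R / 2 := fun y hy => by
    have := hYsub (Finset.mem_coe.2 hy)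
    simpa [Metric.mem_ball] using this
  refine ⟨Y, c, min δB (R / 2), hYne, fun y hy => by linarith [hYdist y hy], hc,
    lt_min hδB (by linarith), ?_⟩
  intro z p hz hzp hzpδ hE
  have hzp1 : dist z p ≤ δB := hzpδ.trans (min_le_left _ _)
  have hzp2 : dist z p ≤ R / 2 := hzpδ.trans (min_le_right _ _)
  obtain ⟨γ, hγ⟩ := hSp.geo z p
  obtain ⟨hγ0, hγ1, hγd⟩ := hγ
  have hδ0 : (0 : ℝ) ∈ Icc (0 : ℝ) (dist z p) := ⟨le_refl _, hzp.le⟩
  have hδδ : dist z p ∈ Icc (0 : ℝ) (dist z p) := ⟨hzp.le, le_refl _⟩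
  have hzγ : ∀ s ∈ Icc (0 : ℝ) (dist z p), dist z (γ s) = s := fun s hs => by
    have := hγd 0 hδ0 s hs
    rw [hγ0] at this
    rw [this, abs_sub_comm, sub_zero, abs_of_nonneg hs.1]
  have hγp : ∀ s ∈ Icc (0 : ℝ) (dist z p), dist (γ s) p = dist z p - s := fun s hs => by
    have := hγd s hs (dist z p) hδδ
    rw [hγ1] at this
    rw [this, abs_sub_comm, abs_of_nonneg (by linarith [hs.2])]
  have hfar : ∀ y ∈ Y, ∀ s ∈ Icc (0 : ℝ) (dist z p), R ≤ dist (γ s) y := fun y hy s hs => by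
    have h1 : dist z y₁ ≤ dist z (γ s) + dist (γ s) y + dist y y₁ := dist_triangle4 _ _ _ _
    have h2 := hYdist y hy
    have h3 := hzγ s hs
    linarith [hs.2]
  set B := Y.filter (fun y => dist p y - dist z y ≤ c * dist z p) with hB
  have hsl : ∀ y ∈ B, ∀ s ∈ Icc (dist z p / 4) (3 * dist z p / 4),
      ∀ t ∈ Icc (dist z p / 4) (3 * dist z p / 4),
      |dist (γ s) y - dist (γ t) y| ≤ 5 * c * |s - t| := by
    intro y hy
    obtain ⟨hyY, hyB⟩ := Finset.mem_filter.1 hy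
    refine hslope z p y γ ⟨hγ0, hγ1, hγd⟩ hzp hzp1 (hfar y hyY) ?_ hyB
    intro s hs
    refine hE (γ s) ?_ y
    show dist z (γ s) + dist (γ s) p = dist z p
    rw [hzγ s hs, hγp s hs]
    ring
  obtain ⟨s, hs, hs1, hs2⟩ : ∃ s : ℝ, 0 < s ∧ s ≤ dist z p / 8 ∧ s ≤ s₀ :=
    ⟨min (dist z p / 8) s₀, lt_min (by linarith) hs₀, min_le_left _ _, min_le_right _ _⟩
  have hdd : ∀ a b : ℝ, a ∈ Icc (0 : ℝ) (dist z p) → b ∈ Icc (0 : ℝ) (dist z p) →
      dist (γ a) (γ b) = |a - b| := fun a b ha hb => hγd a ha b hb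
  have m0 : dist z p / 2 ∈ Icc (0 : ℝ) (dist z p) := ⟨by linarith, by linarith⟩
  have m1 : dist z p / 2 - s ∈ Icc (0 : ℝ) (dist z p) := ⟨by linarith, by linarith⟩
  have m2 : dist z p / 2 + s ∈ Icc (0 : ℝ) (dist z p) := ⟨by linarith, by linarith⟩
  have m3 : dist z p / 2 - 2 * s ∈ Icc (0 : ℝ) (dist z p) := ⟨by linarith, by linarith⟩
  have k0 : dist z p / 2 ∈ Icc (dist z p / 4) (3 * dist z p / 4) := ⟨by linarith, by linarith⟩
  have k1 : dist z p / 2 - s ∈ Icc (dist z p / 4) (3 * dist z p / 4) :=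
    ⟨by linarith, by linarith⟩
  have k2 : dist z p / 2 + s ∈ Icc (dist z p / 4) (3 * dist z p / 4) :=
    ⟨by linarith, by linarith⟩
  have k3 : dist z p / 2 - 2 * s ∈ Icc (dist z p / 4) (3 * dist z p / 4) :=
    ⟨by linarith, by linarith⟩
  have habs : |s| = s := abs_of_pos hs
  have habs2 : |2 * s| = 2 * s := abs_of_pos (by linarith)
  have hcard : (B.card : ℝ) ≤ C' * (5 * c) * (1 / ε) ^ n := by
    refine hcount (γ (dist z p / 2)) (γ (dist z p / 2 - s)) (γ (dist z p / 2 + s))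
      (γ (dist z p / 2 - 2 * s)) s hs hs2 ?_ ?_ ?_ ?_ ?_ B ?_ ?_
    · rw [hdd _ _ m0 m1, show dist z p / 2 - (dist z p / 2 - s) = s by ring, habs]
    · rw [hdd _ _ m0 m2, show dist z p / 2 - (dist z p / 2 + s) = -s by ring, abs_neg, habs]
    · rw [hdd _ _ m1 m2, show dist z p / 2 - s - (dist z p / 2 + s) = -(2 * s) by ring, abs_neg,
        habs2]
    · rw [hdd _ _ m1 m3, show dist z p / 2 - s - (dist z p / 2 - 2 * s) = s by ring, habs]
    · rw [hdd _ _ m0 m3, show dist z p / 2 - (dist z p / 2 - 2 * s) = 2 * s by ring, habs2]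
    · intro x hx y hy hxy
      exact hYsep x (Finset.mem_filter.1 hx).1 y (Finset.mem_filter.1 hy).1 hxy
    · intro y hy
      refine ⟨hfar y (Finset.mem_filter.1 hy).1 _ m0, ?_, ?_, ?_⟩
      · have := hsl y hy _ k1 _ k0
        rwa [show dist z p / 2 - s - dist z p / 2 = -s by ring, abs_neg, habs] at this
      · have := hsl y hy _ k2 _ k0
        rwa [show dist z p / 2 + s - dist z p / 2 = s by ring, habs] at this
      · have := hsl y hy _ k3 _ k0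
        rw [show dist z p / 2 - 2 * s - dist z p / 2 = -(2 * s) by ring, abs_neg, habs2] at this
        linarith
  have hEpow : (0 : ℝ) < (1 / ε) ^ n := by positivity
  have hlow : 10 * C' * c * (1 / ε) ^ n ≤ (Y.card : ℝ) := by
    have h1 : cg * (R / 2 / ε) ^ n = cg * (R / 2) ^ n * (1 / ε) ^ n := by
      rw [div_eq_mul_one_div (R / 2) ε, mul_pow]
      ring
    have h2 : 10 * C' * c ≤ cg * (R / 2) ^ n := by
      have h3 : c * (10 * C') ≤ cg * (R / 2) ^ n := by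
        rwa [le_div_iff₀ (by positivity)] at hc2
      linarith
    calc 10 * C' * c * (1 / ε) ^ n ≤ cg * (R / 2) ^ n * (1 / ε) ^ n :=
          mul_le_mul_of_nonneg_right h2 hEpow.le
      _ = cg * (R / 2 / ε) ^ n := h1.symm
      _ ≤ (Y.card : ℝ) := hYcard
  have hfin : (2 : ℝ) * (B.card : ℝ) ≤ (Y.card : ℝ) := by
    have : 2 * (C' * (5 * c) * (1 / ε) ^ n) = 10 * C' * c * (1 / ε) ^ n := by ring
    linarith
  exact_mod_cast hfin

end Pool.Agent.H40.AL
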